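import Pool.Agent.W528.Odd.StmsHT
import Pool.Agent.H204R3.GP.TateG

/-! Project OT, part HTFam. -/

set_option autoImplicit false

namespace Pool.Agent.W839.OT.HTFam

open Module Pool.Agent.H204R3.SP Pool.Agent.H204R3.GP Pool.Agent.W522.U

section comm

variable {K : Type} [Field K] [CharZero K] {X : Type} [AddCommGroup X] [Module K X]
  [FiniteDimensional K X] {Γ : Type} [Group Γ] (R : Representation K Γ X) (χ : Γ →* K)
  (ω : X →ₗ[K] X →ₗ[K] K)

theorem comm (hnd : ∀ u, (∀ v, ω u v = 0) → u = 0)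
    (hω : ∀ g u v, ω (R g u) (R g v) = χ g * ω u v) (Δ : Subgroup Γ) (hΔ : Δ.FiniteIndex)
    (P : Module.End K X) (hP : ∀ s ∈ Δ, ∀ v, P (R s v) = R s (P v)) (x : Module.End K X)
    (hx : x ∈ lieT R χ) (v : X) : x (P v) = P (x v) := by
  have hB : IsTate2 R χ (ω.comp P) := by
    refine ⟨Δ, hΔ, fun s hs u v => ?_⟩
    rw [LinearMap.comp_apply, LinearMap.comp_apply, hP s hs, hω]
  rw [← sub_eq_zero]
  apply hnd
  intro w
  have h1 := lieT_bil R χ hB hx v w
  have h2 := lieT_sp R χ ω hω hx (P v) w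
  rw [LinearMap.comp_apply, LinearMap.comp_apply] at h1
  rw [map_sub, LinearMap.sub_apply]
  linear_combination h2 - h1

end comm

theorem main : Pool.Agent.W528.Odd.HTFam := by
  intro K _ _ X _ _ _ Γ _ R χ ω hnd hω hproj s W hSI hne Δ hΔ hWΔ x₀ hx₀
  choose p hp1 hp2 hp3 using fun i => hproj Δ hΔ (W i) (hWΔ i)
  have hcomm : ∀ i v, x₀ (p i v) = p i (x₀ v) := fun i v =>
    comm R χ ω hnd hω Δ hΔ (p i) (hp3 i) x₀ hx₀ v
  have hst : ∀ i, ∀ u ∈ W i, x₀ u ∈ W i := by
    intro i u hu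
    have h1 := hcomm i u
    rw [hp2 i u hu] at h1
    rw [h1]
    exact hp1 i _
  have hzero : ∀ i j, j ≠ i → ∀ u ∈ W j, p i u = 0 := by
    intro i j hij u hu
    by_contra hc
    apply hij
    apply hne j i
    refine ⟨Δ, hΔ, p i, fun u _ => hp1 i u, ⟨u, hu, hc⟩, fun g hg u _ => ?_⟩
    rw [one_smul]
    exact hp3 i g hg u
  let r := fun i => resR R Δ (W i) (hWΔ i)
  let Y : ∀ i, Module.End K (W i) := fun i => x₀.restrict (hst i)
  let Q : X →ₗ[K] (∀ i, W i) := LinearMap.pi fun i => (p i).codRestrict (W i) (hp1 i)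
  have hQ : ∀ x i, ((Q x i : W i) : X) = p i x := fun x i => rfl
  have hsurj : Function.Surjective Q := by
    intro y
    refine ⟨∑ j, (y j : X), ?_⟩
    funext i
    apply Subtype.ext
    rw [hQ, map_sum, Finset.sum_eq_single i]
    · exact hp2 i _ (y i).2
    · intro j _ hj
      exact hzero i j hj _ (y j).2
    · intro h; exact absurd (Finset.mem_univ i) h
  have hQR : ∀ (g : Δ) (x : X), Q (R g.1 x) = piRep r g (Q x) := by
    intro g x
    funext i
    apply Subtype.ext
    rw [hQ, hp3 i g.1 g.2]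
    rfl
  have hQx : ∀ x, Q (x₀ x) = blk Y (Q x) := by
    intro x
    funext i
    apply Subtype.ext
    rw [hQ, ← hcomm]
    rfl
  refine ⟨Y, ?_, fun i u => rfl⟩
  rw [mem_hh]
  intro m φ hφ
  obtain ⟨D', hD', hφ'⟩ := hφ
  have hT : IsTate R χ m (φ.compLinearMap (fun _ => Q)) := by
    refine ⟨D'.map Δ.subtype, fi_map hΔ D' hD', ?_⟩
    rintro _ ⟨g, hg, rfl⟩ v
    rw [MultilinearMap.compLinearMap_apply, MultilinearMap.compLinearMap_apply]
    have h1 := hφ' g hg (fun k => Q (v k))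
    rw [MonoidHom.comp_apply] at h1
    rw [← h1]
    congr 1
    funext k
    exact hQR g (v k)
  have hk := hx₀ m _ hT
  intro v
  choose v' hv' using fun k => hsurj (v k)
  have h1 := hk v'
  rw [← h1]
  apply Finset.sum_congr rfl
  intro k _
  rw [MultilinearMap.compLinearMap_apply]
  congr 1
  funext k'
  by_cases h : k' = k
  · subst h
    rw [Function.update_self, Function.update_self, hQx, hv']
  · rw [Function.update_of_ne h, Function.update_of_ne h, hv']

end Pool.Agent.W839.OT.HTFam
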